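import Pool.Agent.Y184.NT.St
import Pool.Agent.W619.PQ.Local

/-!
Places over the hypersurface are trivial on the base (project NT, helper184).
-/

set_option autoImplicit false

open FF Polynomial Pool.Agent.W602.GT

namespace Pool.Agent.Y721.NT

open Pool.Agent.Y184.NT

section red

variable {k K : Type} [Field k] [Field K] [Algebra k K] (P : Place k K)

/-- residues of polynomial expressions -/
theorem red_aeval {σ : Type} (u : σ → K) (hu : ∀ i, P.Reg (u i)) (G : MvPolynomial σ k) :
    P.Reg (MvPolynomial.aeval u G) ∧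
      P.red (MvPolynomial.aeval u G) = MvPolynomial.aeval (fun i => P.red (u i)) G := by
  induction G using MvPolynomial.induction_on with
  | C c =>
    rw [MvPolynomial.algHom_C, MvPolynomial.algHom_C]
    exact ⟨P.reg_const c, rfl⟩
  | add p q hp hq =>
    rw [map_add, map_add, P.red_add hp.1 hq.1, hp.2, hq.2]
    exact ⟨P.reg_add hp.1 hq.1, rfl⟩
  | mul_X p i hp =>
    rw [map_mul, map_mul, MvPolynomial.aeval_X, MvPolynomial.aeval_X, P.red_mul hp.1 (hu i), hp.2]
    exact ⟨P.reg_mul hp.1 (hu i), rfl⟩

theorem red_inv {f : K} (h0 : f ≠ 0) (h : P.ord f = 0) :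
    P.Reg f⁻¹ ∧ P.red f⁻¹ = (P.red f)⁻¹ := by
  have h1 : P.Reg f⁻¹ := Or.inr (by rw [P.ord_inv]; omega)
  refine ⟨h1, ?_⟩
  have h2 := P.red_mul (Or.inr h.ge : P.Reg f) h1
  rw [mul_inv_cancel₀ h0, P.red_one] at h2
  exact eq_inv_of_mul_eq_one_right h2.symm

end red

section field

variable {L R : Type} [Field L] [Algebra ℂ L] [Field R] [Algebra ℂ R] [Algebra L R]
  [IsScalarTower ℂ L R] (w : Place ℂ R)

/-- the field of the residues of the elements of `L` -/
noncomputable def resField : IntermediateField ℂ w.RF where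
  carrier := {x | ∃ l : L, w.Reg (algebraMap L R l) ∧ w.red (algebraMap L R l) = x}
  mul_mem' := by
    rintro _ _ ⟨l, hl, rfl⟩ ⟨l', hl', rfl⟩
    exact ⟨l * l', by rw [map_mul]; exact w.reg_mul hl hl', by rw [map_mul, w.red_mul hl hl']⟩
  add_mem' := by
    rintro _ _ ⟨l, hl, rfl⟩ ⟨l', hl', rfl⟩
    exact ⟨l + l', by rw [map_add]; exact w.reg_add hl hl', by rw [map_add, w.red_add hl hl']⟩
  algebraMap_mem' := by
    intro c
    refine ⟨algebraMap ℂ L c, ?_, ?_⟩
    · rw [← IsScalarTower.algebraMap_apply]
      exact w.reg_const c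
    · rw [← IsScalarTower.algebraMap_apply]
      rfl
  inv_mem' := by
    rintro _ ⟨l, hl, rfl⟩
    by_cases h0 : w.red (algebraMap L R l) = 0
    · rw [h0, inv_zero]
      exact ⟨0, by rw [map_zero]; exact w.reg_zero, by rw [map_zero, w.red_zero]⟩
    · have h1 := h0
      rw [w.red_eq_zero_iff hl] at h1
      push Not at h1
      have h2 : w.ord (algebraMap L R l) = 0 := by
        have := (w.reg_iff h1.1).1 hl
        omega
      obtain ⟨h3, h4⟩ := red_inv w h1.1 h2
      exact ⟨l⁻¹, by rw [map_inv₀]; exact h3, by rw [map_inv₀]; exact h4⟩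

theorem mem_resField {x : w.RF} : x ∈ resField (L := L) w ↔
    ∃ l : L, w.Reg (algebraMap L R l) ∧ w.red (algebraMap L R l) = x := Iff.rfl

/-- if the residues have the full transcendence degree the place is trivial -/
theorem trivial_of_indep {n : ℕ} (htr : Algebra.trdeg ℂ L = n) (m : Fin n → w.RF)
    (hm : ∀ i, m i ∈ resField (L := L) w) (hind : AlgebraicIndependent ℂ m) (l : L) :
    w.ord (algebraMap L R l) = 0 := by
  choose x hx hxm using hm
  have h1 : ∀ G : MvPolynomial (Fin n) ℂ, G ≠ 0 →
      algebraMap L R (MvPolynomial.aeval x G) ≠ 0 ∧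
        w.ord (algebraMap L R (MvPolynomial.aeval x G)) = 0 := by
    intro G hG
    have h2 : algebraMap L R (MvPolynomial.aeval x G) =
        MvPolynomial.aeval (fun i => algebraMap L R (x i)) G :=
      (MvPolynomial.aeval_algebraMap_apply R x G).symm
    obtain ⟨h3, h4⟩ := red_aeval w (fun i => algebraMap L R (x i)) hx G
    have h5 : MvPolynomial.aeval (fun i => w.red (algebraMap L R (x i))) G ≠ 0 := by
      intro h0
      apply hG
      have h6 : (fun i => w.red (algebraMap L R (x i))) = m := funext hxm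
      rw [h6] at h0
      exact (injective_iff_map_eq_zero _).1 hind G h0
    rw [← h4, Ne, w.red_eq_zero_iff h3] at h5
    push Not at h5
    rw [h2]
    refine ⟨h5.1, ?_⟩
    have := (w.reg_iff h5.1).1 h3
    omega
  have hxi : AlgebraicIndependent ℂ x := by
    rw [algebraicIndependent_iff]
    intro G hG
    by_contra hG0
    exact (h1 G hG0).1 (by rw [hG, map_zero])
  have hbasis : IsTranscendenceBasis ℂ x := by
    refine hxi.isTranscendenceBasis_of_lift_trdeg_le_of_finite ?_
    rw [htr]
    simp
  have halg : Algebra.IsAlgebraic (IntermediateField.adjoin ℂ (Set.range x)) L :=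
    hbasis.isAlgebraic_field
  have h2 : ∀ f : IntermediateField.adjoin ℂ (Set.range x),
      w.ord (algebraMap (IntermediateField.adjoin ℂ (Set.range x)) R f) = 0 := by
    intro f
    have h3 := f.2
    rw [IntermediateField.mem_adjoin_range_iff] at h3
    obtain ⟨p, q, hpq⟩ := h3
    change w.ord (algebraMap L R (f : L)) = 0
    rw [hpq, map_div₀]
    by_cases hp : p = 0
    · rw [hp, map_zero, map_zero, zero_div, w.ord_zero]
    by_cases hq : q = 0
    · rw [hq, map_zero, map_zero, div_zero, w.ord_zero]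
    rw [w.ord_div (h1 p hp).1 (h1 q hq).1, (h1 p hp).2, (h1 q hq).2, sub_zero]
  exact Pool.Agent.W619.PQ.ord_eq_zero_of_alg
    (K0 := IntermediateField.adjoin ℂ (Set.range x)) (K1 := L) (K2 := R) w h2 l

end field

theorem hom_aeval {N d : ℕ} {L : Type} [Field L] [Algebra ℂ L] {A : MvPolynomial (Fin N) ℂ}
    (hA : A.IsHomogeneous d) (s : L)
    (x : Fin N → L) : MvPolynomial.aeval (fun i => s * x i) A = s ^ d * MvPolynomial.aeval x A := by
  rw [MvPolynomial.aeval_def, MvPolynomial.aeval_def, MvPolynomial.eval₂_eq',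
    MvPolynomial.eval₂_eq', Finset.mul_sum]
  refine Finset.sum_congr rfl fun c hc => ?_
  have h0 : ∑ i, c i = d := by
    have := hA (MvPolynomial.mem_support_iff.1 hc)
    rw [← this, Finsupp.weight_apply, Finsupp.sum_fintype _ _ (by simp)]
    simp
  have h1 : ∏ i, (s * x i) ^ c i = s ^ d * ∏ i, x i ^ c i := by
    rw [← h0, ← Finset.prod_pow_eq_pow_sum, ← Finset.prod_mul_distrib]
    exact Finset.prod_congr rfl fun i _ => mul_pow _ _ _
  rw [h1]; ring

/-- a small transcendence basis -/
theorem exists_small {M : Type} [Field M] [Algebra ℂ M] {n : ℕ}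
    (h : ∀ m : Fin n → M, ¬ AlgebraicIndependent ℂ m) :
    ∃ (N : ℕ) (z : Fin N → M), N < n ∧ IsTranscendenceBasis ℂ z := by
  obtain ⟨B, -, hB⟩ := exists_isTranscendenceBasis_superset (R := ℂ) (A := M) (s := ∅)
    (algebraicIndependent_empty_type)
  have hfin : Set.Finite B := by
    by_contra hinf
    have hinf' : B.Infinite := hinf
    obtain ⟨f⟩ : Nonempty (Fin n ↪ B) := by
      have : Infinite B := hinf'.to_subtype
      exact ⟨(Fin.valEmbedding).trans (Infinite.natEmbedding B)⟩
    exact h (fun i => (f i : M)) (hB.1.comp f f.injective)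
  have : Fintype B := hfin.fintype
  let e := Fintype.equivFin B
  refine ⟨Fintype.card B, fun i => (e.symm i : M), ?_, hB.comp_equiv e.symm⟩
  by_contra hcard
  push Not at hcard
  exact h (fun i => (e.symm (Fin.castLE hcard i) : M))
    (hB.1.comp (fun i => e.symm (Fin.castLE hcard i))
      (e.symm.injective.comp (Fin.castLE_injective hcard)))

/-- the contradiction in the residue field -/
theorem core (hNL : StNL) {M Ω : Type} [Field M] [Algebra ℂ M] [Field Ω] [Algebra ℂ Ω]
    [Algebra M Ω] [IsScalarTower ℂ M Ω] {n d N : ℕ} (hn : 1 ≤ n) (hN : N < n) (z : Fin N → M)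
    (hz : IsTranscendenceBasis ℂ z) (F : MvPolynomial (Fin (n + 2)) ℂ) (hF : Sm F)
    (hFd : F.IsHomogeneous d) (hnd : n < d) (a b : Fin (n + 2) → M)
    (hab : LinearIndependent M ![a, b]) (t c : Ω) (hc : c ≠ 0) (u : Fin (n + 2) → Ω)
    (hu : ∀ j, u j = c * (algebraMap M Ω (a j) + t * algebraMap M Ω (b j)))
    (j0 : Fin (n + 2)) (hj0 : u j0 = 1) (s : Fin n → Fin (n + 2))
    (hs : AlgebraicIndependent ℂ (fun i => u (s i))) (hFu : MvPolynomial.aeval u F = 0) :
    False := by
  set y : Fin (n + 2) → Ω := fun j => algebraMap M Ω (a j) + t * algebraMap M Ω (b j) with hy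
  have huy : u = fun j => c * y j := funext hu
  have hy0 : c * y j0 = 1 := by rw [← hj0, huy]
  have hyj0 : y j0 ≠ 0 := right_ne_zero_of_mul_eq_one hy0
  have hys : ∀ k, y k / y j0 = u k := by
    intro k
    rw [div_eq_iff hyj0, huy]
    calc y k = y k * (c * y j0) := by rw [hy0, mul_one]
      _ = c * y k * y j0 := by ring
  have h1 := hNL M N n d hn z hz F hF hFd hnd a b hab Ω t y (fun j => rfl) j0 hyj0 s (by
    have : (fun i : Fin n => y (s i) / y j0) = fun i => u (s i) := funext fun i => hys (s i)
    rw [this]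
    exact hs)
  have hFy : MvPolynomial.aeval y F = 0 := by
    have h2 := hom_aeval hFd c y
    rw [← huy, hFu] at h2
    exact (mul_eq_zero.1 h2.symm).resolve_left (pow_ne_zero _ hc)
  have h3 : Polynomial.aeval t (restr F a b) = 0 := by
    rw [← hFy]
    unfold restr
    change ((Polynomial.aeval t : M[X] →ₐ[M] Ω).restrictScalars ℂ)
      (MvPolynomial.aeval (lin a b) F) = _
    rw [← AlgHom.comp_apply, MvPolynomial.comp_aeval]
    congr 2
    funext j
    simp [lin, hy]
    exact mul_comm _ _
  -- `t` is transcendental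
  have ht : Transcendental M t := by
    intro halg
    let A := algebraicClosure M Ω
    have hmem : ∀ k, u k ∈ A := by
      intro k
      rw [mem_algebraicClosure_iff]
      have h4 : ∀ k, IsAlgebraic M (y k) := fun k =>
        (isAlgebraic_algebraMap _).add (halg.mul (isAlgebraic_algebraMap _))
      rw [← hys, div_eq_mul_inv]
      exact (h4 k).mul (h4 j0).inv
    have hzA : IsTranscendenceBasis ℂ (fun i => algebraMap M A (z i)) := by
      exact hz.algebraMap_comp (A := A)
    have h5 : AlgebraicIndependent ℂ (fun i : Fin n => (⟨u (s i), hmem (s i)⟩ : A)) := by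
      have h8 : AlgebraicIndependent ℂ ((A.restrictScalars ℂ).val ∘
          fun i : Fin n => (⟨u (s i), hmem (s i)⟩ : A)) := hs
      exact AlgebraicIndependent.of_comp (A.restrictScalars ℂ).val h8
    have h6 := hzA.lift_cardinalMk_eq_trdeg
    have h7 := h5.lift_cardinalMk_le_trdeg
    rw [← h6] at h7
    simp at h7
    omega
  exact h1 ((transcendental_iff.1 ht) _ h3)

theorem t_vert (hNL : StNL) : StVert := by
  classical
  intro L R _ _ _ _ _ _ n d hn htr F hF hFd hnd w a b hab u hu j0 hj0 α β huab s hs hFu l0 hl0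
  by_contra hord
  set M := resField (L := L) w with hM
  -- few algebraically independent residues
  have hfew : ∀ m : Fin n → M, ¬ AlgebraicIndependent ℂ m := by
    intro m hm
    apply hord
    refine trivial_of_indep w htr (fun i => ((m i : M) : w.RF)) (fun i => (m i).2) ?_ l0
    exact hm.map' (f := M.val) M.val.injective
  obtain ⟨N, z, hN, hz⟩ := exists_small hfew
  -- the minors
  set μ : Fin (n + 2) → Fin (n + 2) → L := fun i j => a i * b j - a j * b i with hμ
  have hex : ∃ p : Fin (n + 2) × Fin (n + 2), μ p.1 p.2 ≠ 0 := by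
    by_contra hcon
    push Not at hcon
    have h1 : ∀ i j, a i * b j = a j * b i := fun i j => sub_eq_zero.1 (hcon (i, j))
    rw [LinearIndependent.pair_iff] at hab
    by_cases ha : ∃ i, a i ≠ 0
    · obtain ⟨i, hi⟩ := ha
      have h2 := hab (b i) (-(a i)) (by
        funext j
        simp only [Pi.add_apply, Pi.smul_apply, smul_eq_mul, Pi.zero_apply]
        linear_combination -(h1 i j))
      exact hi (neg_eq_zero.1 h2.2)
    · push Not at ha
      have h2 := hab 1 0 (by
        funext j
        simp [ha])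
      exact one_ne_zero h2.1
  obtain ⟨⟨i, j⟩, hij, hmin⟩ : ∃ p : Fin (n + 2) × Fin (n + 2), μ p.1 p.2 ≠ 0 ∧
      ∀ p' : Fin (n + 2) × Fin (n + 2), μ p'.1 p'.2 ≠ 0 →
        w.ord (algebraMap L R (μ p.1 p.2)) ≤ w.ord (algebraMap L R (μ p'.1 p'.2)) := by
    obtain ⟨p0, hp0⟩ := hex
    obtain ⟨p, hp, hpm⟩ := Finset.exists_min_image
      (Finset.univ.filter fun p : Fin (n + 2) × Fin (n + 2) => μ p.1 p.2 ≠ 0)
      (fun p => w.ord (algebraMap L R (μ p.1 p.2))) ⟨p0, by simp [hp0]⟩
    refine ⟨p, (Finset.mem_filter.1 hp).2, fun p' hp' => hpm p' ?_⟩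
    simp [hp']
  simp only at hij hmin
  have hij' : algebraMap L R (μ i j) ≠ 0 := (_root_.map_ne_zero _).2 hij
  have hregm : ∀ p' : Fin (n + 2) × Fin (n + 2), w.Reg (algebraMap L R (μ p'.1 p'.2 / μ i j)) := by
    intro p'
    by_cases h0 : μ p'.1 p'.2 = 0
    · rw [h0, zero_div, map_zero]
      exact w.reg_zero
    · right
      rw [map_div₀, w.ord_div ((_root_.map_ne_zero _).2 h0) hij']
      have := hmin p' h0
      omega
  set a' : Fin (n + 2) → L := fun k => μ k j / μ i j with ha'
  set b' : Fin (n + 2) → L := fun k => μ i k / μ i j with hb'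
  have hra : ∀ k, w.Reg (algebraMap L R (a' k)) := fun k => hregm (k, j)
  have hrb : ∀ k, w.Reg (algebraMap L R (b' k)) := fun k => hregm (i, k)
  have huu : ∀ k, u k = u i * algebraMap L R (a' k) + u j * algebraMap L R (b' k) := by
    intro k
    apply mul_right_cancel₀ hij'
    rw [add_mul, mul_assoc, mul_assoc, ← map_mul, ← map_mul]
    have h1 : a' k * μ i j = μ k j := div_mul_cancel₀ _ hij
    have h2 : b' k * μ i j = μ i k := div_mul_cancel₀ _ hij
    rw [h1, h2, huab k, huab i, huab j]
    simp only [hμ, map_sub, map_mul]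
    ring
  -- the residues
  set ub : Fin (n + 2) → w.RF := fun k => w.red (u k) with hub
  let A : Fin (n + 2) → M := fun k => ⟨w.red (algebraMap L R (a' k)), a' k, hra k, rfl⟩
  let B : Fin (n + 2) → M := fun k => ⟨w.red (algebraMap L R (b' k)), b' k, hrb k, rfl⟩
  have hAi : A i = 1 := by
    apply Subtype.ext
    change w.red (algebraMap L R (a' i)) = 1
    rw [ha']
    simp only
    rw [div_self hij, map_one, w.red_one]
  have hAj : A j = 0 := by
    apply Subtype.ext
    change w.red (algebraMap L R (a' j)) = 0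
    rw [ha']
    simp only [hμ]
    rw [sub_self, zero_div, map_zero, w.red_zero]
  have hBi : B i = 0 := by
    apply Subtype.ext
    change w.red (algebraMap L R (b' i)) = 0
    rw [hb']
    simp only [hμ]
    rw [sub_self, zero_div, map_zero, w.red_zero]
  have hBj : B j = 1 := by
    apply Subtype.ext
    change w.red (algebraMap L R (b' j)) = 1
    rw [hb']
    simp only
    rw [div_self hij, map_one, w.red_one]
  have hAB : LinearIndependent M ![A, B] := by
    rw [LinearIndependent.pair_iff]
    intro x y hxy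
    have h1 := congrFun hxy i
    have h2 := congrFun hxy j
    simp only [Pi.add_apply, Pi.smul_apply, smul_eq_mul, Pi.zero_apply, hAi, hAj, hBi, hBj,
      mul_one, mul_zero, add_zero, zero_add] at h1 h2
    exact ⟨h1, h2⟩
  have hBA : LinearIndependent M ![B, A] := by
    rw [LinearIndependent.pair_iff]
    intro x y hxy
    have h1 := congrFun hxy i
    have h2 := congrFun hxy j
    simp only [Pi.add_apply, Pi.smul_apply, smul_eq_mul, Pi.zero_apply, hAi, hAj, hBi, hBj,
      mul_one, mul_zero, add_zero, zero_add] at h1 h2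
    exact ⟨h2, h1⟩
  have hubk : ∀ k, ub k = ub i * algebraMap M w.RF (A k) + ub j * algebraMap M w.RF (B k) := by
    intro k
    change w.red (u k) = w.red (u i) * w.red (algebraMap L R (a' k)) +
      w.red (u j) * w.red (algebraMap L R (b' k))
    rw [← w.red_mul (hu i) (hra k), ← w.red_mul (hu j) (hrb k),
      ← w.red_add (w.reg_mul (hu i) (hra k)) (w.reg_mul (hu j) (hrb k)), ← huu k]
  have hub0 : ub j0 = 1 := by
    change w.red (u j0) = 1
    rw [hj0, w.red_one]
  have hubs : AlgebraicIndependent ℂ (fun i => ub (s i)) := by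
    rw [algebraicIndependent_iff]
    intro G hG
    by_contra hG0
    obtain ⟨h1, h2⟩ := hs G hG0
    have h3 := (red_aeval w (fun i => u (s i)) (fun i => hu (s i)) G).2
    rw [show MvPolynomial.aeval (fun i => w.red (u (s i))) G = 0 from hG] at h3
    exact w.red_ne_zero h1 h2 h3
  have hFub : MvPolynomial.aeval ub F = 0 := by
    obtain ⟨h1, h2⟩ := red_aeval w u hu F
    change MvPolynomial.aeval (fun i => w.red (u i)) F = 0
    rw [← h2, w.red_eq_zero_iff h1]
    rcases hFu with h | h
    · exact Or.inl h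
    · exact Or.inr (by omega)
  by_cases hi0 : ub i = 0
  · have hj : ub j ≠ 0 := by
      intro hj
      have h1 := hubk j0
      rw [hi0, hj, zero_mul, zero_mul, add_zero, hub0] at h1
      exact one_ne_zero h1
    refine core hNL hn hN z hz F hF hFd hnd B A hBA 0 (ub j) hj ub (fun k => ?_) j0 hub0 s hubs
      hFub
    rw [hubk k, hi0]
    ring
  · refine core hNL hn hN z hz F hF hFd hnd A B hAB (ub j / ub i) (ub i) hi0 ub (fun k => ?_) j0
      hub0 s hubs hFub
    rw [hubk k]
    field_simp

end Pool.Agent.Y721.NT
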